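import Mathlib

set_option autoImplicit false

/-!
# The formula of Cauchy and Binet and the sums over the sets which contain a given one
-/

namespace Pool.Agent.H53CB

open Finset

variable {K : Type*} [Field K] {E : Type*} {k : ℕ}

/-- The matrix of a set. -/
def M (v w : E → Fin k → K) (A : Finset E) : Matrix (Fin k) (Fin k) K :=
  fun i j => ∑ x ∈ A, v x i * w x j

/-- The summand of a function. -/
private def g (v w : E → Fin k → K) (φ : Fin k → E) : K :=
  (∏ i, v (φ i) i) * Matrix.det (fun i => w (φ i))

private theorem g_zero (v w : E → Fin k → K) {φ : Fin k → E} (h : ¬ Function.Injective φ) :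
    g v w φ = 0 := by
  have h1 : Matrix.det (fun i => w (φ i)) = 0 := by
    have h2 : ¬ Function.Injective (fun i => w (φ i)) := by
      intro h3
      exact h fun a b hab => h3 (by show w (φ a) = w (φ b); rw [hab])
    exact (Matrix.detRowAlternating (n := Fin k) (R := K)).map_eq_zero_of_not_injective _ h2
  rw [g, h1, mul_zero]

private theorem det_M_eq (v w : E → Fin k → K) (A : Finset E) :
    (M v w A).det = ∑ φ ∈ Fintype.piFinset (fun _ : Fin k => A), g v w φ := by
  have h1 : M v w A = fun i => ∑ x ∈ A, v x i • w x := by
    funext i j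
    rw [Finset.sum_apply]
    rfl
  have h2 := (Matrix.detRowAlternating (n := Fin k) (R := K)).toMultilinearMap.map_sum_finset
    (fun i x => v x i • w x) (fun _ => A)
  have h3 : (M v w A).det = ∑ r ∈ Fintype.piFinset (fun _ : Fin k => A),
      (Matrix.detRowAlternating (n := Fin k) (R := K)).toMultilinearMap
        (fun i => v (r i) i • w (r i)) := by
    rw [h1]
    exact h2
  rw [h3]
  refine Finset.sum_congr rfl fun φ _ => ?_
  rw [MultilinearMap.map_smul_univ]
  rfl

/-- **Cauchy-Binet.** -/
theorem cauchy_binet [DecidableEq E] (v w : E → Fin k → K) (B : Finset E) :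
    (M v w B).det = ∑ A ∈ B.powersetCard k, (M v w A).det := by
  have hinj : ∀ A : Finset E, (M v w A).det =
      ∑ φ ∈ (Fintype.piFinset (fun _ : Fin k => A)).filter Function.Injective, g v w φ := by
    intro A
    rw [det_M_eq, Finset.sum_filter]
    refine Finset.sum_congr rfl fun φ _ => ?_
    split_ifs with h
    · rfl
    · exact g_zero v w h
  rw [hinj B]
  have hmap : ∀ φ ∈ (Fintype.piFinset (fun _ : Fin k => B)).filter Function.Injective,
      Finset.univ.image φ ∈ B.powersetCard k := by
    intro φ hφ
    rw [Finset.mem_filter, Fintype.mem_piFinset] at hφ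
    rw [Finset.mem_powersetCard]
    constructor
    · intro x hx
      obtain ⟨i, _, rfl⟩ := Finset.mem_image.mp hx
      exact hφ.1 i
    · rw [Finset.card_image_of_injective _ hφ.2, Finset.card_univ, Fintype.card_fin]
  rw [← Finset.sum_fiberwise_of_maps_to hmap]
  refine Finset.sum_congr rfl fun A hA => ?_
  rw [hinj A]
  refine Finset.sum_congr ?_ fun _ _ => rfl
  rw [Finset.mem_powersetCard] at hA
  ext φ
  simp only [Finset.mem_filter, Fintype.mem_piFinset]
  constructor
  · rintro ⟨⟨h1, h2⟩, h3⟩
    refine ⟨fun i => ?_, h2⟩
    rw [← h3]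
    exact Finset.mem_image_of_mem _ (Finset.mem_univ i)
  · rintro ⟨h1, h2⟩
    refine ⟨⟨fun i => hA.1 (h1 i), h2⟩, ?_⟩
    refine Finset.eq_of_subset_of_card_le ?_ ?_
    · intro x hx
      obtain ⟨i, _, rfl⟩ := Finset.mem_image.mp hx
      exact h1 i
    · rw [Finset.card_image_of_injective _ h2, Finset.card_univ, Fintype.card_fin, hA.2]

theorem det_M_of_card_lt [DecidableEq E] (v w : E → Fin k → K) {D : Finset E} (h : D.card < k) :
    (M v w D).det = 0 := by
  rw [cauchy_binet, Finset.powersetCard_eq_empty.mpr h, Finset.sum_empty]

/-- The function `F` of the two families. -/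
def F (v w : E → Fin k → K) (A : Finset E) : K := if A.card = k then (M v w A).det else 0

theorem card_of_F {v w : E → Fin k → K} {A : Finset E} (h : F v w A ≠ 0) : A.card = k := by
  by_contra h1
  exact h (if_neg h1)

/-- The determinant of a set of `k` elements in a listing `f`. -/
theorem det_M_eq_mul [DecidableEq E] (v w : E → Fin k → K) (A : Finset E) {f : Fin k → E}
    (hf : Function.Injective f) (hA : Finset.univ.image f = A) :
    (M v w A).det = (Matrix.of fun i => v (f i)).det * (Matrix.of fun i => w (f i)).det := by
  have h1 : M v w A = (Matrix.of fun i => v (f i)).transpose * (Matrix.of fun i => w (f i)) := by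
    funext i j
    rw [Matrix.mul_apply]
    show (∑ x ∈ A, v x i * w x j) = ∑ m, v (f m) i * w (f m) j
    rw [← hA, Finset.sum_image fun a _ b _ h => hf h]
  rw [h1, Matrix.det_mul, Matrix.det_transpose]

theorem det_ne_zero_iff (v : E → Fin k → K) (f : Fin k → E) :
    (Matrix.of fun i => v (f i)).det ≠ 0 ↔ LinearIndependent K fun i => v (f i) := by
  rw [← isUnit_iff_ne_zero, ← Matrix.isUnit_iff_isUnit_det]
  exact (Matrix.linearIndependent_rows_iff_isUnit (A := Matrix.of fun i => v (f i))).symm

/-- `F A` is not zero exactly for the common bases. -/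
theorem F_ne_zero_iff (v w : E → Fin k → K) (A : Finset E) :
    F v w A ≠ 0 ↔ A.card = k ∧ (LinearIndependent K fun x : A => v x) ∧
      LinearIndependent K fun x : A => w x := by
  classical
  by_cases hA : A.card = k
  · have e : Fin k ≃ A := (finCongr hA.symm).trans A.equivFin.symm
    have hf : Function.Injective fun i => (e i : E) := fun a b h => e.injective (Subtype.ext h)
    have hi : Finset.univ.image (fun i => (e i : E)) = A := by
      ext x
      simp only [Finset.mem_image, Finset.mem_univ, true_and]
      constructor
      · rintro ⟨i, rfl⟩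
        exact (e i).2
      · intro hx
        exact ⟨e.symm ⟨x, hx⟩, by simp⟩
    rw [F, if_pos hA, det_M_eq_mul v w A hf hi, mul_ne_zero_iff, det_ne_zero_iff,
      det_ne_zero_iff]
    have hv := linearIndependent_equiv e (R := K) (f := fun x : A => v x)
    have hw := linearIndependent_equiv e (R := K) (f := fun x : A => w x)
    constructor
    · rintro ⟨h1, h2⟩
      exact ⟨hA, hv.mp h1, hw.mp h2⟩
    · rintro ⟨_, h1, h2⟩
      exact ⟨hv.mpr h1, hw.mpr h2⟩
  · rw [F, if_neg hA]
    simp [hA]

variable [Fintype E] [DecidableEq E]

/-- The sums over the sets without elements of `D`. -/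
theorem sum_compl {v w : E → Fin k → K} (hrel : ∀ i j, ∑ x, v x i * w x j = 0) {D : Finset E}
    (hD : D.card < k) : ∑ A with Disjoint A D, F v w A = 0 := by
  have h1 : (M v w Dᶜ).det = 0 := by
    have h2 : M v w Dᶜ = -M v w D := by
      funext i j
      have h3 := Finset.sum_compl_add_sum D (fun x => v x i * w x j)
      rw [hrel i j] at h3
      show (∑ x ∈ Dᶜ, v x i * w x j) = -(∑ x ∈ D, v x i * w x j)
      linear_combination h3
    rw [h2, Matrix.det_neg, det_M_of_card_lt v w hD, mul_zero]
  rw [cauchy_binet] at h1
  rw [← h1]
  symm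
  have h4 : (Dᶜ.powersetCard k) = (Finset.univ.filter fun A : Finset E => Disjoint A D).filter
      fun A => A.card = k := by
    ext A
    simp only [Finset.mem_powersetCard, Finset.mem_filter, Finset.mem_univ, true_and]
    rw [Finset.subset_compl_iff_disjoint_right]
  rw [h4, Finset.sum_filter]
  rfl

/-- The sums over the sets which contain `C` and are disjoint from `D`. -/
theorem sum_between {v w : E → Fin k → K} (hrel : ∀ i j, ∑ x, v x i * w x j = 0) :
    ∀ (C D : Finset E), Disjoint C D → C.card + D.card < k →
      ∑ A with C ⊆ A ∧ Disjoint A D, F v w A = 0 := by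
  intro C
  induction C using Finset.induction_on with
  | empty =>
    intro D _ hk
    simp only [Finset.empty_subset, true_and]
    exact sum_compl hrel (by simpa using hk)
  | insert c C hc ih =>
    intro D hd hk
    rw [Finset.card_insert_of_notMem hc] at hk
    rw [Finset.disjoint_insert_left] at hd
    have h1 := ih D hd.2 (by omega)
    have hk2 : C.card + (insert c D).card < k := by
      rw [Finset.card_insert_of_notMem hd.1]
      omega
    have hd2 : Disjoint C (insert c D) := by
      rw [Finset.disjoint_insert_right]
      exact ⟨hc, hd.2⟩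
    have h2 := ih (insert c D) hd2 hk2
    have h3 := Finset.sum_filter_add_sum_filter_not
      (Finset.univ.filter fun A : Finset E => C ⊆ A ∧ Disjoint A D) (fun A => c ∈ A) (F v w)
    rw [h1, Finset.filter_filter, Finset.filter_filter] at h3
    have h4 : (Finset.univ.filter fun A : Finset E => (C ⊆ A ∧ Disjoint A D) ∧ c ∈ A) =
        Finset.univ.filter fun A : Finset E => insert c C ⊆ A ∧ Disjoint A D := by
      ext A
      simp only [Finset.mem_filter, Finset.mem_univ, true_and, Finset.insert_subset_iff]
      tauto
    have h5 : (Finset.univ.filter fun A : Finset E => (C ⊆ A ∧ Disjoint A D) ∧ ¬ c ∈ A) =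
        Finset.univ.filter fun A : Finset E => C ⊆ A ∧ Disjoint A (insert c D) := by
      ext A
      simp only [Finset.mem_filter, Finset.mem_univ, true_and, Finset.disjoint_insert_right]
      tauto
    rw [h4, h5, h2, add_zero] at h3
    exact h3

/-- **All sums over the sets which contain a set of fewer than `k` elements vanish.** -/
theorem htot {v w : E → Fin k → K} (hrel : ∀ i j, ∑ x, v x i * w x j = 0) {C : Finset E}
    (hC : C.card < k) : ∑ A with C ⊆ A, F v w A = 0 := by
  have h := sum_between hrel C ∅ (Finset.disjoint_empty_right _) (by simpa using hC)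
  simpa using h

end Pool.Agent.H53CB
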