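import Pool.Agent.H53CB.CB
import Pool.Agent.H41FR2.Frame

set_option autoImplicit false

/-!
# Two components of the common bases which are far from each other are separated by a cut
-/

namespace Pool.Agent.H53CB

open Finset Pool.Agent.H41FR2

variable {K : Type*} [Field K] {E : Type*} {k : ℕ}

omit [Field K] in
private theorem span_range (v : E → Fin k → K) (A : Finset E) :
    v '' (A : Set E) = Set.range fun x : A => v x := by
  ext y
  constructor
  · rintro ⟨x, hx, rfl⟩
    exact ⟨⟨x, hx⟩, rfl⟩
  · rintro ⟨x, rfl⟩
    exact ⟨x, x.2, rfl⟩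

private theorem not_li {v : E → Fin k → K} {A G : Finset E}
    (hA : LinearIndependent K fun x : A => v x) (hc : G.card < A.card)
    (h : ∀ x ∈ A, v x ∈ Submodule.span K (v '' (G : Set E))) : False := by
  have h1 : Submodule.span K (v '' (A : Set E)) ≤ Submodule.span K (v '' (G : Set E)) := by
    rw [Submodule.span_le]
    rintro _ ⟨x, hx, rfl⟩
    exact h x hx
  have h2 := Submodule.finrank_mono h1
  rw [span_range, span_range, finrank_span_eq_card hA] at h2
  have h3 := finrank_range_le_card (R := K) (fun x : G => v x)
  rw [Set.finrank] at h3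
  simp only [Fintype.card_coe] at h2 h3
  omega

private theorem span_top {v : E → Fin k → K} {A : Finset E}
    (hA : LinearIndependent K fun x : A => v x) (hc : A.card = k) :
    Submodule.span K (v '' (A : Set E)) = ⊤ := by
  rw [span_range]
  refine hA.span_eq_top_of_card_eq_finrank' ?_
  rw [Fintype.card_coe, Module.finrank_fin_fun, hc]

private theorem li_mono {v : E → Fin k → K} {A G : Finset E}
    (hA : LinearIndependent K fun x : A => v x) (h : G ⊆ A) :
    LinearIndependent K fun x : G => v x := by
  have h1 : LinearIndepOn K v (A : Set E) := hA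
  exact h1.mono (by exact_mod_cast h)

private theorem li_insert [DecidableEq E] {v : E → Fin k → K} {G : Finset E} {e : E}
    (hG : LinearIndependent K fun x : G => v x)
    (h : v e ∉ Submodule.span K (v '' (G : Set E))) :
    LinearIndependent K fun x : (insert e G : Finset E) => v x := by
  have h1 : LinearIndepOn K v (G : Set E) := hG
  have h2 : LinearIndepOn K v (insert e (G : Set E)) := h1.insert h
  rw [← Finset.coe_insert] at h2
  exact h2

/-- Exchange. -/
private theorem exch [DecidableEq E] {v : E → Fin k → K} {A A' : Finset E}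
    (hA : LinearIndependent K fun x : A => v x) (hc : A.card = k)
    (hA' : LinearIndependent K fun x : A' => v x) {d : E} (hd : d ∈ A') (hd' : d ∉ A) :
    ∃ a ∈ A, a ∉ A' ∧ LinearIndependent K fun x : (insert d (A.erase a) : Finset E) => v x := by
  have h1 : LinearIndepOn K v ((insert d (A ∩ A') : Finset E) : Set E) :=
    li_mono hA' (Finset.insert_subset hd Finset.inter_subset_right)
  have h2 : ((insert d (A ∩ A') : Finset E) : Set E) ⊆ ((insert d A : Finset E) : Set E) := by
    exact_mod_cast Finset.insert_subset_insert d Finset.inter_subset_left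
  obtain ⟨b, hb1, hb2, hb3, hb4⟩ := exists_linearIndepOn_extension h1 h2
  classical
  have hfin : b.Finite := (Finset.finite_toSet _).subset hb1
  obtain ⟨B, rfl⟩ : ∃ B : Finset E, (B : Set E) = b := ⟨hfin.toFinset, by simp⟩
  have hBsub : B ⊆ insert d A := by exact_mod_cast hb1
  have hBsup : insert d (A ∩ A') ⊆ B := by exact_mod_cast hb2
  have hB : LinearIndependent K fun x : B => v x := hb4
  -- the cardinality of `B`
  have hBk : B.card = k := by
    apply le_antisymm
    · by_contra hlt
      push Not at hlt
      refine not_li hB (G := A) (by omega) fun x _ => ?_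
      rw [span_top hA hc]
      exact Submodule.mem_top
    · by_contra hlt
      push Not at hlt
      refine not_li hA (G := B) (by omega) fun x hx => ?_
      exact hb3 ⟨x, by simp [hx], rfl⟩
  have hcard : (insert d A).card = k + 1 := by rw [Finset.card_insert_of_notMem hd', hc]
  obtain ⟨a, ha, haB⟩ : ∃ a ∈ insert d A, a ∉ B := by
    by_contra hno
    push Not at hno
    have := Finset.card_le_card (show insert d A ⊆ B from fun x hx => hno x hx)
    omega
  have had : a ≠ d := by
    rintro rfl
    exact haB (hBsup (Finset.mem_insert_self _ _))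
  have haA : a ∈ A := (Finset.mem_insert.mp ha).resolve_left had
  have haA' : a ∉ A' := fun h =>
    haB (hBsup (Finset.mem_insert_of_mem (Finset.mem_inter.mpr ⟨haA, h⟩)))
  refine ⟨a, haA, haA', ?_⟩
  have hE : B = insert d (A.erase a) := by
    apply Finset.eq_of_subset_of_card_le
    · intro x hx
      have hxa : x ≠ a := fun h => haB (h ▸ hx)
      rcases Finset.mem_insert.mp (hBsub hx) with h | h
      · exact h ▸ Finset.mem_insert_self _ _
      · exact Finset.mem_insert_of_mem (Finset.mem_erase.mpr ⟨hxa, h⟩)
    · have h5 : d ∉ A.erase a := fun h => hd' (Finset.mem_of_mem_erase h)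
      rw [Finset.card_insert_of_notMem h5, Finset.card_erase_of_mem haA, hBk, hc]
      have : 0 < A.card := Finset.card_pos.mpr ⟨a, haA⟩
      omega
  rw [← hE]
  exact hB

/-- A set of `k - 1` elements, independent in both families and near to `A` and `A'`. -/
private theorem near [DecidableEq E] {v w : E → Fin k → K} {A A' : Finset E}
    (hA : F v w A ≠ 0) (hA' : F v w A' ≠ 0) (hfar : (A ∩ A').card + 3 ≤ k) :
    ∃ G : Finset E, G.card + 1 = k ∧ (LinearIndependent K fun x : G => v x) ∧
      (LinearIndependent K fun x : G => w x) ∧ A ∩ A' ⊆ G ∧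
      k ≤ (G ∩ A).card + 2 ∧ (A ∩ A').card < (G ∩ A').card := by
  rw [F_ne_zero_iff] at hA hA'
  obtain ⟨hc, hv, hw⟩ := hA
  obtain ⟨hc', hv', hw'⟩ := hA'
  -- the difference has at least three elements
  have hdiff : 3 ≤ (A \ A').card := by
    have := Finset.card_sdiff_add_card_inter A A'
    omega
  obtain ⟨d, hd, hd'⟩ : ∃ d ∈ A', d ∉ A := by
    by_contra hno
    push Not at hno
    have h1 : A' ⊆ A ∩ A' := fun x hx => Finset.mem_inter.mpr ⟨hno x hx, hx⟩
    have := Finset.card_le_card h1
    omega
  obtain ⟨a, ha, ha', hva⟩ := exch hv hc hv' hd hd'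
  obtain ⟨b, hb, hb', hwb⟩ := exch hw hc hw' hd hd'
  -- two different elements `a`, `c` of `A` outside of `A'`
  obtain ⟨p, q, hp, hq, hp', hq', hpq, hG1, hG2⟩ : ∃ p q : E, p ∈ A ∧ q ∈ A ∧ p ∉ A' ∧ q ∉ A' ∧
      p ≠ q ∧ (LinearIndependent K fun x : (insert d ((A.erase p).erase q) : Finset E) => v x) ∧
      (LinearIndependent K fun x : (insert d ((A.erase p).erase q) : Finset E) => w x) := by
    by_cases hab : a = b
    · obtain ⟨c, hcm, hca⟩ : ∃ c ∈ A \ A', c ≠ a := by
        by_contra hno
        push Not at hno
        have h1 : A \ A' ⊆ {a} := fun x hx => Finset.mem_singleton.mpr (hno x hx)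
        have := Finset.card_le_card h1
        simp at this
        omega
      rw [Finset.mem_sdiff] at hcm
      refine ⟨a, c, ha, hcm.1, ha', hcm.2, hca.symm, ?_, ?_⟩
      · exact li_mono hva (Finset.insert_subset_insert d (Finset.erase_subset _ _))
      · rw [← hab] at hwb
        exact li_mono hwb (Finset.insert_subset_insert d (Finset.erase_subset _ _))
    · refine ⟨a, b, ha, hb, ha', hb', hab, ?_, ?_⟩
      · exact li_mono hva (Finset.insert_subset_insert d (Finset.erase_subset _ _))
      · rw [Finset.erase_right_comm]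
        exact li_mono hwb (Finset.insert_subset_insert d (Finset.erase_subset _ _))
  have hq2 : q ∈ A.erase p := Finset.mem_erase.mpr ⟨hpq.symm, hq⟩
  have hd2 : d ∉ (A.erase p).erase q := fun h =>
    hd' (Finset.mem_of_mem_erase (Finset.mem_of_mem_erase h))
  have hcG : ((A.erase p).erase q).card + 2 = k := by
    rw [Finset.card_erase_of_mem hq2, Finset.card_erase_of_mem hp, hc]
    omega
  have hsub : A ∩ A' ⊆ (A.erase p).erase q := by
    intro x hx
    rw [Finset.mem_inter] at hx
    refine Finset.mem_erase.mpr ⟨fun h => hq' (h ▸ hx.2), Finset.mem_erase.mpr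
      ⟨fun h => hp' (h ▸ hx.2), hx.1⟩⟩
  refine ⟨insert d ((A.erase p).erase q), ?_, hG1, hG2, ?_, ?_, ?_⟩
  · rw [Finset.card_insert_of_notMem hd2]
    omega
  · exact hsub.trans (Finset.subset_insert _ _)
  · have h1 : (A.erase p).erase q ⊆ insert d ((A.erase p).erase q) ∩ A := by
      intro x hx
      exact Finset.mem_inter.mpr ⟨Finset.mem_insert_of_mem hx,
        Finset.mem_of_mem_erase (Finset.mem_of_mem_erase hx)⟩
    have := Finset.card_le_card h1
    omega
  · have h1 : insert d (A ∩ A') ⊆ insert d ((A.erase p).erase q) ∩ A' := by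
      intro x hx
      rcases Finset.mem_insert.mp hx with h | h
      · rw [h]
        exact Finset.mem_inter.mpr ⟨Finset.mem_insert_self _ _, hd⟩
      · exact Finset.mem_inter.mpr ⟨Finset.mem_insert_of_mem (hsub h),
          (Finset.mem_inter.mp h).2⟩
    have h2 := Finset.card_le_card h1
    rw [Finset.card_insert_of_notMem (fun h => hd' (Finset.mem_inter.mp h).1)] at h2
    omega

/-- **The cut.** -/
theorem cut [Fintype E] [DecidableEq E] (v w : E → Fin k → K) (C : Finset E) :
    (∀ A A', C ⊆ A → C ⊆ A' → F v w A ≠ 0 → F v w A' ≠ 0 →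
      Relation.ReflTransGen (fun P Q => Adj2 k (F v w) P Q ∧ C ⊆ Q) A A') ∨
    ∃ Z : Finset E, Disjoint Z C ∧ (∀ A, C ⊆ A → A ⊆ C ∪ Z → F v w A = 0) ∧
      ∀ A, C ⊆ A → Disjoint A Z → F v w A = 0 := by
  classical
  by_cases hZ : ∃ Z : Finset E, Disjoint Z C ∧ (∀ A, C ⊆ A → A ⊆ C ∪ Z → F v w A = 0) ∧
      ∀ A, C ⊆ A → Disjoint A Z → F v w A = 0
  · exact Or.inr hZ
  left
  have key : ∀ n : ℕ, ∀ A A', k ≤ (A ∩ A').card + n → C ⊆ A → C ⊆ A' → F v w A ≠ 0 →
      F v w A' ≠ 0 → Relation.ReflTransGen (fun P Q => Adj2 k (F v w) P Q ∧ C ⊆ Q) A A' := by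
    intro n
    induction n with
    | zero =>
      intro A A' hn h1 h2 h3 h4
      exact Relation.ReflTransGen.single ⟨⟨h3, h4, by omega⟩, h2⟩
    | succ n ih =>
      intro A A' hn h1 h2 h3 h4
      by_cases hfar : (A ∩ A').card + 3 ≤ k
      · obtain ⟨G, hG, hGv, hGw, hsub, hGA, hGA'⟩ := near h3 h4 hfar
        have hCG : C ⊆ G := (Finset.subset_inter h1 h2).trans hsub
        by_cases he : ∃ e, v e ∉ Submodule.span K (v '' (G : Set E)) ∧
            w e ∉ Submodule.span K (w '' (G : Set E))
        · obtain ⟨e, hev, hew⟩ := he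
          have heG : e ∉ G := fun h => hev (Submodule.subset_span ⟨e, h, rfl⟩)
          have hB : F v w (insert e G) ≠ 0 := by
            rw [F_ne_zero_iff]
            refine ⟨?_, li_insert hGv hev, li_insert hGw hew⟩
            rw [Finset.card_insert_of_notMem heG, hG]
          have hCB : C ⊆ insert e G := hCG.trans (Finset.subset_insert _ _)
          have i1 : (G ∩ A).card ≤ (A ∩ insert e G).card := Finset.card_le_card (by
            intro x hx
            rw [Finset.mem_inter] at hx
            exact Finset.mem_inter.mpr ⟨hx.2, Finset.mem_insert_of_mem hx.1⟩)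
          have i2 : (G ∩ A').card ≤ (insert e G ∩ A').card := Finset.card_le_card
            (Finset.inter_subset_inter_right (Finset.subset_insert _ _))
          refine Relation.ReflTransGen.head ⟨⟨h3, hB, by omega⟩, hCB⟩ ?_
          exact ih (insert e G) A' (by omega) hCB h2 hB h4
        · exfalso
          push Not at he
          apply hZ
          refine ⟨Finset.univ.filter fun e => e ∉ C ∧ v e ∈ Submodule.span K (v '' (G : Set E)),
            ?_, ?_, ?_⟩
          · rw [Finset.disjoint_left]
            intro x hx
            exact (Finset.mem_filter.mp hx).2.1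
          · intro B _ hB
            by_contra hF'
            have hF := (F_ne_zero_iff v w B).mp hF'
            refine not_li hF.2.1 (G := G) (by omega) fun x hx => ?_
            rcases Finset.mem_union.mp (hB hx) with h | h
            · exact Submodule.subset_span ⟨x, hCG h, rfl⟩
            · exact (Finset.mem_filter.mp h).2.2
          · intro B _ hB
            by_contra hF'
            have hF := (F_ne_zero_iff v w B).mp hF'
            refine not_li hF.2.2 (G := G) (by omega) fun x hx => ?_
            by_cases hxC : x ∈ C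
            · exact Submodule.subset_span ⟨x, hCG hxC, rfl⟩
            · apply he x
              intro hxv
              exact (Finset.disjoint_left.mp hB hx) (Finset.mem_filter.mpr
                ⟨Finset.mem_univ x, hxC, hxv⟩)
      · exact Relation.ReflTransGen.single ⟨⟨h3, h4, by omega⟩, h2⟩
  intro A A' h1 h2 h3 h4
  exact key k A A' (by omega) h1 h2 h3 h4

/-- **The complement is reached by exchanges of at most two elements.** -/
theorem two_reach [Fintype E] [DecidableEq E] (v w : E → Fin k → K)
    (hrel : ∀ i j, ∑ x, v x i * w x j = 0) (hE : Fintype.card E = 2 * k) (S : Finset E)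
    (hS : F v w S ≠ 0) : Relation.ReflTransGen (Adj2 k (F v w)) S Sᶜ :=
  reach k (F v w) (fun _ h => card_of_F h) (fun _ hC => htot hrel hC)
    (fun C _ => cut v w C) hE S hS

end Pool.Agent.H53CB
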