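import Pool.Agent.H53CB.CB

set_option autoImplicit false

/-!
# A nearest pair of common bases of two colours
-/

namespace Pool.Agent.H53CB

open Finset

variable {K : Type*} [Field K] {E : Type*} {k : ℕ}

/-- The span of a set. -/
private def S (v : E → Fin k → K) (X : Finset E) : Submodule K (Fin k → K) :=
  Submodule.span K (v '' (X : Set E))

/-- Independent set. -/
private def LI (v : E → Fin k → K) (X : Finset E) : Prop :=
  LinearIndepOn K v (X : Set E)

/-- Common bases. -/
private def CB (v w : E → Fin k → K) (X : Finset E) : Prop :=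
  X.card = k ∧ LI v X ∧ LI w X

private theorem cb_iff (v w : E → Fin k → K) (X : Finset E) : F v w X ≠ 0 ↔ CB v w X :=
  F_ne_zero_iff v w X

private theorem cb_symm {v w : E → Fin k → K} {X : Finset E} (h : CB v w X) : CB w v X :=
  ⟨h.1, h.2.2, h.2.1⟩

private theorem LI.mono {v : E → Fin k → K} {X Y : Finset E} (h : LI v X) (hs : Y ⊆ X) :
    LI v Y :=
  LinearIndepOn.mono (t := (Y : Set E)) h (by exact_mod_cast hs)

private theorem S_mono {v : E → Fin k → K} {X Y : Finset E} (hs : X ⊆ Y) : S v X ≤ S v Y :=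
  Submodule.span_mono (Set.image_mono (by exact_mod_cast hs))

private theorem mem_S {v : E → Fin k → K} {X : Finset E} {e : E} (h : e ∈ X) : v e ∈ S v X :=
  Submodule.subset_span ⟨e, h, rfl⟩

private theorem not_li {v : E → Fin k → K} {A G : Finset E} (hA : LI v A)
    (hc : G.card < A.card) (h : ∀ x ∈ A, v x ∈ S v G) : False := by
  have hA1 : LinearIndependent K fun x : A => v x := hA
  have hr : ∀ X : Finset E, v '' (X : Set E) = Set.range fun x : X => v x := by
    intro X
    ext y
    constructor
    · rintro ⟨x, hx, rfl⟩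
      exact ⟨⟨x, hx⟩, rfl⟩
    · rintro ⟨x, rfl⟩
      exact ⟨x, x.2, rfl⟩
  have h1 : Submodule.span K (v '' (A : Set E)) ≤ Submodule.span K (v '' (G : Set E)) := by
    rw [Submodule.span_le]
    rintro _ ⟨x, hx, rfl⟩
    exact h x hx
  have h2 := Submodule.finrank_mono h1
  rw [hr, hr, finrank_span_eq_card hA1] at h2
  have h3 := finrank_range_le_card (R := K) (fun x : G => v x)
  rw [Set.finrank] at h3
  simp only [Fintype.card_coe] at h2 h3
  omega

variable [DecidableEq E]

private theorem li_insert {v : E → Fin k → K} {G : Finset E} {e : E} (hG : LI v G)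
    (h : v e ∉ S v G) : LI v (insert e G) := by
  have h2 : LinearIndepOn K v (insert e (G : Set E)) := LinearIndepOn.insert hG h
  rw [← Finset.coe_insert] at h2
  exact h2

private theorem not_mem_S {v : E → Fin k → K} {G : Finset E} {e : E} (h : LI v (insert e G))
    (he : e ∉ G) : v e ∉ S v G := by
  have h1 : LinearIndepOn K v (insert e (G : Set E)) := by
    rw [← Finset.coe_insert]
    exact h
  exact ((linearIndepOn_insert (by exact_mod_cast he)).mp h1).2

/-- The intersection of two hyperplanes. -/
private theorem mem_both {v : E → Fin k → K} {G : Finset E} {x y : E} {u : Fin k → K}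
    (h : LI v (insert x (insert y G))) (hx : x ∉ insert y G)
    (h1 : u ∈ S v (insert x G)) (h2 : u ∈ S v (insert y G)) : u ∈ S v G := by
  have h3 := not_mem_S h hx
  unfold S at h1
  rw [Finset.coe_insert, Set.image_insert_eq, Submodule.mem_span_insert] at h1
  obtain ⟨c, g, hg, rfl⟩ := h1
  by_cases hc : c = 0
  · rw [hc, zero_smul, zero_add]
    exact hg
  · exfalso
    apply h3
    have h4 : g ∈ S v (insert y G) := S_mono (Finset.subset_insert _ _) hg
    have h5 : c • v x ∈ S v (insert y G) := by
      have := Submodule.sub_mem _ h2 h4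
      rwa [add_sub_cancel_right] at this
    have h6 := Submodule.smul_mem _ c⁻¹ h5
    rwa [smul_smul, inv_mul_cancel₀ hc, one_smul] at h6

/-- A common basis over `G + x`. -/
private theorem common {v w : E → Fin k → K} {G : Finset E} {x e : E} (hG : G.card + 2 = k)
    (hx : x ∉ G) (hv : LI v (insert x G)) (hw : LI w (insert x G))
    (h1 : v e ∉ S v (insert x G)) (h2 : w e ∉ S w (insert x G)) :
    CB v w (insert e (insert x G)) := by
  have he : e ∉ insert x G := fun h => h1 (mem_S h)
  refine ⟨?_, li_insert hv h1, li_insert hw h2⟩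
  rw [Finset.card_insert_of_notMem he, Finset.card_insert_of_notMem hx]
  omega

private theorem card_pair {v w : E → Fin k → K} {G : Finset E} {x y : E}
    (hG : G.card + 2 = k) (h : CB v w (insert x (insert y G))) : x ∉ insert y G ∧ y ∉ G := by
  have h1 := h.1
  constructor
  · intro hx
    rw [Finset.insert_eq_of_mem hx] at h1
    have := Finset.card_insert_le y G
    omega
  · intro hy
    rw [Finset.insert_eq_of_mem hy] at h1
    have := Finset.card_insert_le x G
    omega

/-- An element which is generic in the first family is degenerate in the second one. -/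
private theorem cell {v w : E → Fin k → K} {U : Finset E → Prop}
    (hU : ∀ A A', U A → CB v w A → CB v w A' → k ≤ (A ∩ A').card + 1 → U A')
    {G : Finset E} {a1 a2 d1 d2 e : E} (hG : G.card + 2 = k)
    (hA : CB v w (insert a1 (insert a2 G))) (hA' : CB v w (insert d1 (insert d2 G)))
    (h3 : U (insert a1 (insert a2 G))) (h4 : ¬ U (insert d1 (insert d2 G)))
    (hv1 : v e ∉ S v (insert a1 G)) (hv2 : v e ∉ S v (insert a2 G))
    (hw : w e ∉ S w (insert a1 G) ∨ w e ∉ S w (insert a2 G)) : False := by
  -- neighbours share `G + x`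
  have adj : ∀ (X Y : Finset E) (x : E), x ∉ G → insert x G ⊆ X → insert x G ⊆ Y →
      k ≤ (X ∩ Y).card + 1 := by
    intro X Y x hx hX hY
    have := Finset.card_le_card (Finset.subset_inter hX hY)
    rw [Finset.card_insert_of_notMem hx] at this
    omega
  obtain ⟨i1, i2⟩ := card_pair hG hA
  obtain ⟨j1, j2⟩ := card_pair hG hA'
  have i1' : a1 ∉ G := fun h => i1 (Finset.mem_insert_of_mem h)
  have j1' : d1 ∉ G := fun h => j1 (Finset.mem_insert_of_mem h)
  have s1 : ∀ x y : E, insert x G ⊆ insert x (insert y G) := fun x y =>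
    Finset.insert_subset_insert x (Finset.subset_insert y G)
  have s2 : ∀ x y : E, insert y G ⊆ insert x (insert y G) := fun x y =>
    Finset.subset_insert x _
  have heG : e ∉ G := fun h => hv1 (S_mono (Finset.subset_insert _ _) (mem_S h))
  -- the neighbour of `A`
  obtain ⟨B, hB, hBU, heB⟩ : ∃ B, CB v w B ∧ U B ∧ insert e G ⊆ B := by
    have key : ∀ a, a ∉ G → insert a G ⊆ insert a1 (insert a2 G) → v e ∉ S v (insert a G) →
        w e ∉ S w (insert a G) → ∃ B, CB v w B ∧ U B ∧ insert e G ⊆ B := by
      intro a haG hsub h5 h6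
      have hB := common hG haG (hA.2.1.mono hsub) (hA.2.2.mono hsub) h5 h6
      exact ⟨_, hB, hU _ _ h3 hA hB (adj _ _ a haG hsub (s2 _ _)), s1 _ _⟩
    rcases hw with h | h
    · exact key a1 i1' (s1 _ _) hv1 h
    · exact key a2 i2 (s2 _ _) hv2 h
  have hwG : w e ∉ S w G := by
    rcases hw with h | h
    · exact fun h' => h (S_mono (Finset.subset_insert _ _) h')
    · exact fun h' => h (S_mono (Finset.subset_insert _ _) h')
  -- the elements `d` lie in one of the two hyperplanes
  have hd : ∀ d, d ∉ G → insert d G ⊆ insert d1 (insert d2 G) → LI w (insert d G) →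
      v d ∈ S v (insert a1 G) ∨ v d ∈ S v (insert a2 G) := by
    intro d hdG hsub hdw
    by_contra hno
    push Not at hno
    have hwd : w d ∉ S w G := not_mem_S hdw hdG
    obtain ⟨a, haG, haA, hva, hwa⟩ : ∃ a, a ∉ G ∧ insert a G ⊆ insert a1 (insert a2 G) ∧
        v d ∉ S v (insert a G) ∧ w d ∉ S w (insert a G) := by
      by_cases h5 : w d ∈ S w (insert a1 G)
      · refine ⟨a2, i2, s2 _ _, hno.2, fun h6 => hwd ?_⟩
        exact mem_both hA.2.2 i1 h5 h6
      · exact ⟨a1, i1', s1 _ _, hno.1, h5⟩
    have hB := common hG haG (hA.2.1.mono haA) (hA.2.2.mono haA) hva hwa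
    have hBU := hU _ _ h3 hA hB (adj _ _ a haG haA (s2 _ _))
    exact h4 (hU _ _ hBU hB hA' (adj _ _ d hdG (s1 _ _) hsub))
  -- the neighbour of `A'`
  obtain ⟨d, hdG, hsub, hwd⟩ : ∃ d, d ∉ G ∧ insert d G ⊆ insert d1 (insert d2 G) ∧
      w e ∉ S w (insert d G) := by
    by_cases h5 : w e ∈ S w (insert d1 G)
    · refine ⟨d2, j2, s2 _ _, fun h6 => hwG ?_⟩
      exact mem_both hA'.2.2 j1 h5 h6
    · exact ⟨d1, j1', s1 _ _, h5⟩
  have hvd : v e ∉ S v (insert d G) := by
    intro h5
    rcases hd d hdG hsub (hA'.2.2.mono hsub) with h6 | h6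
    · refine hv1 ?_
      have : S v (insert d G) ≤ S v (insert a1 G) := by
        unfold S
        rw [Submodule.span_le]
        rintro _ ⟨x, hx, rfl⟩
        rcases Finset.mem_insert.mp (by exact_mod_cast hx : x ∈ insert d G) with h7 | h7
        · rw [h7]
          exact h6
        · exact mem_S (Finset.mem_insert_of_mem h7)
      exact this h5
    · refine hv2 ?_
      have : S v (insert d G) ≤ S v (insert a2 G) := by
        unfold S
        rw [Submodule.span_le]
        rintro _ ⟨x, hx, rfl⟩
        rcases Finset.mem_insert.mp (by exact_mod_cast hx : x ∈ insert d G) with h7 | h7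
        · rw [h7]
          exact h6
        · exact mem_S (Finset.mem_insert_of_mem h7)
      exact this h5
  have hB' := common hG hdG (hA'.2.1.mono hsub) (hA'.2.2.mono hsub) hvd hwd
  have hB'U := hU _ _ hBU hB hB' (adj _ _ e heG heB (s1 _ _))
  exact h4 (hU _ _ hB'U hB' hA' (adj _ _ d hdG (s2 _ _) hsub))

private theorem span_range (v : E → Fin k → K) (A : Finset E) :
    v '' (A : Set E) = Set.range fun x : A => v x := by
  ext y
  constructor
  · rintro ⟨x, hx, rfl⟩
    exact ⟨⟨x, hx⟩, rfl⟩
  · rintro ⟨x, rfl⟩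
    exact ⟨x, x.2, rfl⟩

private theorem not_li' {v : E → Fin k → K} {A G : Finset E}
    (hA : LinearIndependent K fun x : A => v x) (hc : G.card < A.card)
    (h : ∀ x ∈ A, v x ∈ Submodule.span K (v '' (G : Set E))) : False :=
  not_li (v := v) (A := A) (G := G) hA hc h

private theorem span_top2 {v : E → Fin k → K} {A : Finset E}
    (hA : LinearIndependent K fun x : A => v x) (hc : A.card = k) :
    Submodule.span K (v '' (A : Set E)) = ⊤ := by
  rw [span_range]
  refine hA.span_eq_top_of_card_eq_finrank' ?_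
  rw [Fintype.card_coe, Module.finrank_fin_fun, hc]

private theorem li_mono2 {v : E → Fin k → K} {A G : Finset E}
    (hA : LinearIndependent K fun x : A => v x) (h : G ⊆ A) :
    LinearIndependent K fun x : G => v x := by
  have h1 : LinearIndepOn K v (A : Set E) := hA
  exact h1.mono (by exact_mod_cast h)

private theorem li_insert2 {v : E → Fin k → K} {G : Finset E} {e : E}
    (hG : LinearIndependent K fun x : G => v x)
    (h : v e ∉ Submodule.span K (v '' (G : Set E))) :
    LinearIndependent K fun x : (insert e G : Finset E) => v x := by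
  have h1 : LinearIndepOn K v (G : Set E) := hG
  have h2 : LinearIndepOn K v (insert e (G : Set E)) := h1.insert h
  rw [← Finset.coe_insert] at h2
  exact h2

/-- Exchange. -/
private theorem exch2 {v : E → Fin k → K} {A A' : Finset E}
    (hA : LinearIndependent K fun x : A => v x) (hc : A.card = k)
    (hA' : LinearIndependent K fun x : A' => v x) {d : E} (hd : d ∈ A') (hd' : d ∉ A) :
    ∃ a ∈ A, a ∉ A' ∧ LinearIndependent K fun x : (insert d (A.erase a) : Finset E) => v x := by
  have h1 : LinearIndepOn K v ((insert d (A ∩ A') : Finset E) : Set E) :=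
    li_mono2 hA' (Finset.insert_subset hd Finset.inter_subset_right)
  have h2 : ((insert d (A ∩ A') : Finset E) : Set E) ⊆ ((insert d A : Finset E) : Set E) := by
    exact_mod_cast Finset.insert_subset_insert d Finset.inter_subset_left
  obtain ⟨b, hb1, hb2, hb3, hb4⟩ := exists_linearIndepOn_extension h1 h2
  classical
  have hfin : b.Finite := (Finset.finite_toSet _).subset hb1
  obtain ⟨B, rfl⟩ : ∃ B : Finset E, (B : Set E) = b := ⟨hfin.toFinset, by simp⟩
  have hBsub : B ⊆ insert d A := by exact_mod_cast hb1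
  have hBsup : insert d (A ∩ A') ⊆ B := by exact_mod_cast hb2
  have hB : LinearIndependent K fun x : B => v x := hb4
  -- the cardinality of `B`
  have hBk : B.card = k := by
    apply le_antisymm
    · by_contra hlt
      push Not at hlt
      refine not_li' hB (G := A) (by omega) fun x _ => ?_
      rw [span_top2 hA hc]
      exact Submodule.mem_top
    · by_contra hlt
      push Not at hlt
      refine not_li' hA (G := B) (by omega) fun x hx => ?_
      exact hb3 ⟨x, by simp [hx], rfl⟩
  have hcard : (insert d A).card = k + 1 := by rw [Finset.card_insert_of_notMem hd', hc]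
  obtain ⟨a, ha, haB⟩ : ∃ a ∈ insert d A, a ∉ B := by
    by_contra hno
    push Not at hno
    have := Finset.card_le_card (show insert d A ⊆ B from fun x hx => hno x hx)
    omega
  have had : a ≠ d := by
    rintro rfl
    exact haB (hBsup (Finset.mem_insert_self _ _))
  have haA : a ∈ A := (Finset.mem_insert.mp ha).resolve_left had
  have haA' : a ∉ A' := fun h =>
    haB (hBsup (Finset.mem_insert_of_mem (Finset.mem_inter.mpr ⟨haA, h⟩)))
  refine ⟨a, haA, haA', ?_⟩
  have hE : B = insert d (A.erase a) := by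
    apply Finset.eq_of_subset_of_card_le
    · intro x hx
      have hxa : x ≠ a := fun h => haB (h ▸ hx)
      rcases Finset.mem_insert.mp (hBsub hx) with h | h
      · exact h ▸ Finset.mem_insert_self _ _
      · exact Finset.mem_insert_of_mem (Finset.mem_erase.mpr ⟨hxa, h⟩)
    · have h5 : d ∉ A.erase a := fun h => hd' (Finset.mem_of_mem_erase h)
      rw [Finset.card_insert_of_notMem h5, Finset.card_erase_of_mem haA, hBk, hc]
      have : 0 < A.card := Finset.card_pos.mpr ⟨a, haA⟩
      omega
  rw [← hE]
  exact hB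

/-- A set of `k - 1` elements, independent in both families and near to `A` and `A'`. -/
private theorem near2 {v w : E → Fin k → K} {A A' : Finset E}
    (hA : F v w A ≠ 0) (hA' : F v w A' ≠ 0) (hfar : (A ∩ A').card + 3 ≤ k) :
    ∃ G : Finset E, G.card + 1 = k ∧ (LinearIndependent K fun x : G => v x) ∧
      (LinearIndependent K fun x : G => w x) ∧ A ∩ A' ⊆ G ∧
      k ≤ (G ∩ A).card + 2 ∧ (A ∩ A').card < (G ∩ A').card := by
  rw [F_ne_zero_iff] at hA hA'
  obtain ⟨hc, hv, hw⟩ := hA
  obtain ⟨hc', hv', hw'⟩ := hA'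
  -- the difference has at least three elements
  have hdiff : 3 ≤ (A \ A').card := by
    have := Finset.card_sdiff_add_card_inter A A'
    omega
  obtain ⟨d, hd, hd'⟩ : ∃ d ∈ A', d ∉ A := by
    by_contra hno
    push Not at hno
    have h1 : A' ⊆ A ∩ A' := fun x hx => Finset.mem_inter.mpr ⟨hno x hx, hx⟩
    have := Finset.card_le_card h1
    omega
  obtain ⟨a, ha, ha', hva⟩ := exch2 hv hc hv' hd hd'
  obtain ⟨b, hb, hb', hwb⟩ := exch2 hw hc hw' hd hd'
  -- two different elements `a`, `c` of `A` outside of `A'`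
  obtain ⟨p, q, hp, hq, hp', hq', hpq, hG1, hG2⟩ : ∃ p q : E, p ∈ A ∧ q ∈ A ∧ p ∉ A' ∧ q ∉ A' ∧
      p ≠ q ∧ (LinearIndependent K fun x : (insert d ((A.erase p).erase q) : Finset E) => v x) ∧
      (LinearIndependent K fun x : (insert d ((A.erase p).erase q) : Finset E) => w x) := by
    by_cases hab : a = b
    · obtain ⟨c, hcm, hca⟩ : ∃ c ∈ A \ A', c ≠ a := by
        by_contra hno
        push Not at hno
        have h1 : A \ A' ⊆ {a} := fun x hx => Finset.mem_singleton.mpr (hno x hx)
        have := Finset.card_le_card h1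
        simp at this
        omega
      rw [Finset.mem_sdiff] at hcm
      refine ⟨a, c, ha, hcm.1, ha', hcm.2, hca.symm, ?_, ?_⟩
      · exact li_mono2 hva (Finset.insert_subset_insert d (Finset.erase_subset _ _))
      · rw [← hab] at hwb
        exact li_mono2 hwb (Finset.insert_subset_insert d (Finset.erase_subset _ _))
    · refine ⟨a, b, ha, hb, ha', hb', hab, ?_, ?_⟩
      · exact li_mono2 hva (Finset.insert_subset_insert d (Finset.erase_subset _ _))
      · rw [Finset.erase_right_comm]
        exact li_mono2 hwb (Finset.insert_subset_insert d (Finset.erase_subset _ _))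
  have hq2 : q ∈ A.erase p := Finset.mem_erase.mpr ⟨hpq.symm, hq⟩
  have hd2 : d ∉ (A.erase p).erase q := fun h =>
    hd' (Finset.mem_of_mem_erase (Finset.mem_of_mem_erase h))
  have hcG : ((A.erase p).erase q).card + 2 = k := by
    rw [Finset.card_erase_of_mem hq2, Finset.card_erase_of_mem hp, hc]
    omega
  have hsub : A ∩ A' ⊆ (A.erase p).erase q := by
    intro x hx
    rw [Finset.mem_inter] at hx
    refine Finset.mem_erase.mpr ⟨fun h => hq' (h ▸ hx.2), Finset.mem_erase.mpr
      ⟨fun h => hp' (h ▸ hx.2), hx.1⟩⟩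
  refine ⟨insert d ((A.erase p).erase q), ?_, hG1, hG2, ?_, ?_, ?_⟩
  · rw [Finset.card_insert_of_notMem hd2]
    omega
  · exact hsub.trans (Finset.subset_insert _ _)
  · have h1 : (A.erase p).erase q ⊆ insert d ((A.erase p).erase q) ∩ A := by
      intro x hx
      exact Finset.mem_inter.mpr ⟨Finset.mem_insert_of_mem hx,
        Finset.mem_of_mem_erase (Finset.mem_of_mem_erase hx)⟩
    have := Finset.card_le_card h1
    omega
  · have h1 : insert d (A ∩ A') ⊆ insert d ((A.erase p).erase q) ∩ A' := by
      intro x hx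
      rcases Finset.mem_insert.mp hx with h | h
      · rw [h]
        exact Finset.mem_inter.mpr ⟨Finset.mem_insert_self _ _, hd⟩
      · exact Finset.mem_inter.mpr ⟨Finset.mem_insert_of_mem (hsub h),
          (Finset.mem_inter.mp h).2⟩
    have h2 := Finset.card_le_card h1
    rw [Finset.card_insert_of_notMem (fun h => hd' (Finset.mem_inter.mp h).1)] at h2
    omega


/-- **A nearest pair of two colours.** Either two flats of smaller rank cover `E`, or there are the
four cells of a bad square. -/
theorem dich [Fintype E] (v w : E → Fin k → K) (C : Finset E) (U : Finset E → Prop)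
    (hU : ∀ A A', U A → F v w A ≠ 0 → F v w A' ≠ 0 → k ≤ (A ∩ A').card + 1 → U A')
    (A A' : Finset E) (hA : F v w A ≠ 0) (hA' : F v w A' ≠ 0) (h1 : C ⊆ A) (h2 : C ⊆ A')
    (h3 : U A) (h4 : ¬ U A') :
    (∃ T1 T2 : Finset E, C ⊆ T1 ∧ C ⊆ T2 ∧ (∀ e, e ∈ T1 ∨ e ∈ T2) ∧
      (∀ B, B ⊆ T1 → F v w B = 0) ∧ (∀ B, B ⊆ T2 → F v w B = 0)) ∨
    (∃ G F1 F2 G1 G2 : Finset E, C ⊆ G ∧ G.card + 2 = k ∧ G ⊆ F1 ∧ G ⊆ F2 ∧ G ⊆ G1 ∧ G ⊆ G2 ∧
      (∀ B, B ⊆ F1 → F v w B = 0) ∧ (∀ B, B ⊆ F2 → F v w B = 0) ∧
      (∀ B, B ⊆ G1 → F v w B = 0) ∧ (∀ B, B ⊆ G2 → F v w B = 0) ∧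
      ∀ e, (e ∈ F1 ∧ e ∈ F2) ∨ (e ∈ G1 ∧ e ∈ G2) ∨ ((e ∈ F1 ∨ e ∈ F2) ∧ (e ∈ G1 ∨ e ∈ G2))) := by
  classical
  have hU' : ∀ A A', U A → CB v w A → CB v w A' → k ≤ (A ∩ A').card + 1 → U A' :=
    fun A A' a b c d => hU A A' a ((cb_iff v w A).mpr b) ((cb_iff v w A').mpr c) d
  -- the flat of a set
  let fl : (E → Fin k → K) → Finset E → Finset E := fun u X => Finset.univ.filter fun e => u e ∈ S u X
  have hfl : ∀ (u : E → Fin k → K) (X : Finset E) (e : E), e ∈ fl u X ↔ u e ∈ S u X := by
    intro u X e
    simp [fl]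
  have hsub : ∀ (u : E → Fin k → K) (X Y : Finset E), X ⊆ Y → X ⊆ fl u Y := by
    intro u X Y h x hx
    rw [hfl]
    exact mem_S (h hx)
  have zero1 : ∀ X : Finset E, X.card + 1 = k → ∀ B, B ⊆ fl v X → F v w B = 0 := by
    intro X hX B hB
    by_contra hF
    have h := (cb_iff v w B).mp hF
    exact not_li h.2.1 (G := X) (by have := h.1; omega) fun x hx => (hfl v X x).mp (hB hx)
  have zero2 : ∀ X : Finset E, X.card + 1 = k → ∀ B, B ⊆ fl w X → F v w B = 0 := by
    intro X hX B hB
    by_contra hF
    have h := (cb_iff v w B).mp hF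
    exact not_li h.2.2 (G := X) (by have := h.1; omega) fun x hx => (hfl w X x).mp (hB hx)
  -- induction on the distance
  have main : ∀ n : ℕ, ∀ A A' : Finset E, k ≤ (A ∩ A').card + n → F v w A ≠ 0 → F v w A' ≠ 0 →
      C ⊆ A → C ⊆ A' → U A → ¬ U A' →
      (∃ T1 T2 : Finset E, C ⊆ T1 ∧ C ⊆ T2 ∧ (∀ e, e ∈ T1 ∨ e ∈ T2) ∧
        (∀ B, B ⊆ T1 → F v w B = 0) ∧ (∀ B, B ⊆ T2 → F v w B = 0)) ∨
      (∃ G F1 F2 G1 G2 : Finset E, C ⊆ G ∧ G.card + 2 = k ∧ G ⊆ F1 ∧ G ⊆ F2 ∧ G ⊆ G1 ∧ G ⊆ G2 ∧
        (∀ B, B ⊆ F1 → F v w B = 0) ∧ (∀ B, B ⊆ F2 → F v w B = 0) ∧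
        (∀ B, B ⊆ G1 → F v w B = 0) ∧ (∀ B, B ⊆ G2 → F v w B = 0) ∧
        ∀ e, (e ∈ F1 ∧ e ∈ F2) ∨ (e ∈ G1 ∧ e ∈ G2) ∨
          ((e ∈ F1 ∨ e ∈ F2) ∧ (e ∈ G1 ∨ e ∈ G2))) := by
    intro n
    induction n with
    | zero =>
      intro A A' hn a1 a2 _ _ a3 a4
      exact absurd (hU A A' a3 a1 a2 (by omega)) a4
    | succ n ih =>
      intro A A' hn a1 a2 c1 c2 a3 a4
      by_cases hfar : (A ∩ A').card + 3 ≤ k
      · obtain ⟨G, hG, hGv, hGw, hsubG, hGA, hGA'⟩ := near2 a1 a2 hfar
        have hCG : C ⊆ G := (Finset.subset_inter c1 c2).trans hsubG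
        by_cases he : ∃ e, v e ∉ S v G ∧ w e ∉ S w G
        · obtain ⟨e, hev, hew⟩ := he
          have heG : e ∉ G := fun h => hev (mem_S h)
          have hB : F v w (insert e G) ≠ 0 := by
            rw [cb_iff]
            refine ⟨?_, li_insert hGv hev, li_insert hGw hew⟩
            rw [Finset.card_insert_of_notMem heG, hG]
          have hCB : C ⊆ insert e G := hCG.trans (Finset.subset_insert _ _)
          have i1 : (G ∩ A).card ≤ (A ∩ insert e G).card := Finset.card_le_card (by
            intro x hx
            rw [Finset.mem_inter] at hx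
            exact Finset.mem_inter.mpr ⟨hx.2, Finset.mem_insert_of_mem hx.1⟩)
          have i2 : (G ∩ A').card ≤ (insert e G ∩ A').card := Finset.card_le_card
            (Finset.inter_subset_inter_right (Finset.subset_insert _ _))
          by_cases hUB : U (insert e G)
          · exact ih (insert e G) A' (by omega) hB a2 hCB c2 hUB a4
          · exact ih A (insert e G) (by omega) a1 hB c1 hCB a3 hUB
        · push Not at he
          left
          refine ⟨fl v G, fl w G, hsub v C G hCG, hsub w C G hCG, fun e => ?_, zero1 G hG,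
            zero2 G hG⟩
          by_cases hev : v e ∈ S v G
          · exact Or.inl ((hfl v G e).mpr hev)
          · exact Or.inr ((hfl w G e).mpr (he e hev))
      · by_cases hone : k ≤ (A ∩ A').card + 1
        · exact absurd (hU A A' a3 a1 a2 hone) a4
        · right
          have hG : (A ∩ A').card + 2 = k := by omega
          have b1 := (cb_iff v w A).mp a1
          have b2 := (cb_iff v w A').mp a2
          have pair : ∀ X : Finset E, A ∩ A' ⊆ X → X.card = k →
              ∃ x y, X = insert x (insert y (A ∩ A')) := by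
            intro X hX hk
            have h5 : (X \ (A ∩ A')).card = 2 := by
              rw [Finset.card_sdiff_of_subset hX]
              omega
            obtain ⟨x, y, _, h6⟩ := Finset.card_eq_two.mp h5
            refine ⟨x, y, ?_⟩
            have h7 : X = (X \ (A ∩ A')) ∪ (A ∩ A') := (Finset.sdiff_union_of_subset hX).symm
            conv_lhs => rw [h7, h6]
            ext z
            simp [or_assoc]
          obtain ⟨x1, x2, hx⟩ := pair A Finset.inter_subset_left b1.1
          obtain ⟨y1, y2, hy⟩ := pair A' Finset.inter_subset_right b2.1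
          set G := A ∩ A' with hGdef
          clear_value G
          subst hx
          subst hy
          obtain ⟨i1, i2⟩ := card_pair hG b1
          have i1' : x1 ∉ G := fun h => i1 (Finset.mem_insert_of_mem h)
          have cG1 : (insert x1 G).card + 1 = k := by
            rw [Finset.card_insert_of_notMem i1']
            omega
          have cG2 : (insert x2 G).card + 1 = k := by
            rw [Finset.card_insert_of_notMem i2]
            omega
          have hCG : C ⊆ G := by
            rw [hGdef]
            exact Finset.subset_inter c1 c2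
          refine ⟨G, fl v (insert x1 G), fl v (insert x2 G), fl w (insert x1 G),
            fl w (insert x2 G), hCG, hG, hsub _ _ _ (Finset.subset_insert _ _),
            hsub _ _ _ (Finset.subset_insert _ _), hsub _ _ _ (Finset.subset_insert _ _),
            hsub _ _ _ (Finset.subset_insert _ _), zero1 _ cG1, zero1 _ cG2, zero2 _ cG1,
            zero2 _ cG2, fun e => ?_⟩
          simp only [hfl]
          by_contra hcon
          push Not at hcon
          obtain ⟨q1, q2, q3⟩ := hcon
          by_cases p1 : v e ∈ S v (insert x1 G)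
          · -- then the second family is generic
            have p2 := q1 p1
            have p3 := q3 (Or.inl p1)
            have hU2 : ∀ A A', U A → CB w v A → CB w v A' → k ≤ (A ∩ A').card + 1 → U A' :=
              fun A A' a b c d => hU' A A' a (cb_symm b) (cb_symm c) d
            exact cell hU2 hG (cb_symm b1) (cb_symm b2) a3 a4 p3.1 p3.2 (Or.inr p2)
          · by_cases p2 : v e ∈ S v (insert x2 G)
            · have p3 := q3 (Or.inr p2)
              have hU2 : ∀ A A', U A → CB w v A → CB w v A' → k ≤ (A ∩ A').card + 1 → U A' :=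
                fun A A' a b c d => hU' A A' a (cb_symm b) (cb_symm c) d
              exact cell hU2 hG (cb_symm b1) (cb_symm b2) a3 a4 p3.1 p3.2 (Or.inl p1)
            · by_cases p3 : w e ∈ S w (insert x1 G)
              · exact cell hU' hG b1 b2 a3 a4 p1 p2 (Or.inr (q2 p3))
              · exact cell hU' hG b1 b2 a3 a4 p1 p2 (Or.inl p3)
  exact main k A A' (by omega) hA hA' h1 h2 h3 h4

end Pool.Agent.H53CB
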