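import Mathlib

set_option autoImplicit false

/-!
# A nearest pair of common independent sets of two colours (matroid form)
-/

namespace Pool.Agent.H53CB.GeoM

open Finset

variable {E : Type*} [DecidableEq E]

/-- Independence of a finite set. -/
private def I (N : Matroid E) (X : Finset E) : Prop := N.Indep (X : Set E)

/-- `e` does not extend `X`. -/
private def Fl (N : Matroid E) (X : Finset E) (e : E) : Prop := e ∈ X ∨ ¬ I N (insert e X)

private theorem I.mono {N : Matroid E} {X Y : Finset E} (h : I N X) (hs : Y ⊆ X) : I N Y :=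
  Matroid.Indep.subset h (by exact_mod_cast hs)

private theorem Fl.mono {N : Matroid E} {X Y : Finset E} {e : E} (hs : X ⊆ Y) (h : Fl N X e) :
    Fl N Y e := by
  rcases h with h | h
  · exact Or.inl (hs h)
  · exact Or.inr fun h' => h (h'.mono (Finset.insert_subset_insert e hs))

private theorem not_fl {N : Matroid E} {X : Finset E} {e : E} (h : ¬ Fl N X e) :
    e ∉ X ∧ I N (insert e X) := by
  unfold Fl at h
  push Not at h
  exact h

/-- Augmentation. -/
private theorem aug {N : Matroid E} {X Y : Finset E} (hX : I N X) (hY : I N Y)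
    (hc : X.card < Y.card) : ∃ z ∈ Y, z ∉ X ∧ I N (insert z X) := by
  obtain ⟨e, he, he2, hie⟩ := Matroid.Indep.augment_finset hX hY hc
  refine ⟨e, he, he2, ?_⟩
  unfold I
  rw [Finset.coe_insert]
  exact hie

private theorem not_li {N : Matroid E} {B X : Finset E} (hB : I N B) (hX : I N X)
    (hc : X.card < B.card) (h : ∀ x ∈ B, Fl N X x) : False := by
  obtain ⟨z, hz, h1, h2⟩ := aug hX hB hc
  rcases h z hz with h3 | h3
  · exact h1 h3
  · exact h3 h2

/-- The intersection of two hyperplanes. -/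
private theorem mem_both {N : Matroid E} {G : Finset E} {x y e : E}
    (h : I N (insert x (insert y G))) (hx : x ∉ insert y G) (hy : y ∉ G)
    (h1 : Fl N (insert x G) e) (h2 : Fl N (insert y G) e) : Fl N G e := by
  by_contra hcon
  obtain ⟨he, hI⟩ := not_fl hcon
  obtain ⟨z, hz, hz1, hz2⟩ := aug hI h (by
    rw [Finset.card_insert_of_notMem he, Finset.card_insert_of_notMem hx,
      Finset.card_insert_of_notMem hy]
    omega)
  have hze : z ≠ e := fun h' => hz1 (h' ▸ Finset.mem_insert_self _ _)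
  have hzG : z ∉ G := fun h' => hz1 (Finset.mem_insert_of_mem h')
  rw [Finset.insert_comm] at hz2
  have hez : e ∉ insert z G := by
    intro h'
    rcases Finset.mem_insert.mp h' with h' | h'
    · exact hze h'.symm
    · exact he h'
  have hno : ¬ Fl N (insert z G) e := by
    rintro (h' | h')
    · exact hez h'
    · exact h' hz2
  rcases Finset.mem_insert.mp hz with h' | h'
  · exact hno (h' ▸ h1)
  · rcases Finset.mem_insert.mp h' with h'' | h''
    · exact hno (h'' ▸ h2)
    · exact hzG h''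

/-- Transitivity. -/
private theorem trans {N : Matroid E} {G : Finset E} {a d e : E} (ha : a ∉ G)
    (hd : d ∉ G) (hdI : I N (insert d G)) (h1 : Fl N (insert a G) d)
    (h2 : Fl N (insert d G) e) : Fl N (insert a G) e := by
  by_contra hcon
  obtain ⟨he, hI⟩ := not_fl hcon
  obtain ⟨z, hz, hz1, hz2⟩ := aug hdI hI (by
    rw [Finset.card_insert_of_notMem he, Finset.card_insert_of_notMem ha,
      Finset.card_insert_of_notMem hd]
    omega)
  rcases Finset.mem_insert.mp hz with h' | h'
  · rw [h'] at hz1 hz2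
    rcases h2 with h2 | h2
    · exact hz1 h2
    · exact h2 hz2
  · rcases Finset.mem_insert.mp h' with h'' | h''
    · rw [h''] at hz1 hz2
      rw [Finset.insert_comm] at hz2
      rcases h1 with h1 | h1
      · rcases Finset.mem_insert.mp h1 with h3 | h3
        · exact hz1 (h3 ▸ Finset.mem_insert_self _ _)
        · exact hd h3
      · exact h1 hz2
    · exact hz1 (Finset.mem_insert_of_mem h'')

variable {k : ℕ}

/-- Common independent sets of `k` elements. -/
private def CB (k : ℕ) (N₁ N₂ : Matroid E) (X : Finset E) : Prop :=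
  X.card = k ∧ I N₁ X ∧ I N₂ X

private theorem cb_symm {N₁ N₂ : Matroid E} {X : Finset E} (h : CB k N₁ N₂ X) :
    CB k N₂ N₁ X := ⟨h.1, h.2.2, h.2.1⟩

private theorem common {N₁ N₂ : Matroid E} {G : Finset E} {x e : E} (hG : G.card + 2 = k)
    (hx : x ∉ G) (h1 : ¬ Fl N₁ (insert x G) e) (h2 : ¬ Fl N₂ (insert x G) e) :
    CB k N₁ N₂ (insert e (insert x G)) := by
  obtain ⟨he, i1⟩ := not_fl h1
  obtain ⟨_, i2⟩ := not_fl h2
  refine ⟨?_, i1, i2⟩
  rw [Finset.card_insert_of_notMem he, Finset.card_insert_of_notMem hx]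
  omega

private theorem card_pair {N₁ N₂ : Matroid E} {G : Finset E} {x y : E}
    (hG : G.card + 2 = k) (h : CB k N₁ N₂ (insert x (insert y G))) :
    x ∉ insert y G ∧ y ∉ G := by
  have h1 := h.1
  constructor
  · intro hx
    rw [Finset.insert_eq_of_mem hx] at h1
    have := Finset.card_insert_le y G
    omega
  · intro hy
    rw [Finset.insert_eq_of_mem hy] at h1
    have := Finset.card_insert_le x G
    omega

/-- An element which is generic in the first matroid is degenerate in the second one. -/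
private theorem cell {N₁ N₂ : Matroid E} {U : Finset E → Prop}
    (hU : ∀ A A', U A → CB k N₁ N₂ A → CB k N₁ N₂ A' → k ≤ (A ∩ A').card + 1 → U A')
    {G : Finset E} {a1 a2 d1 d2 e : E} (hG : G.card + 2 = k)
    (hA : CB k N₁ N₂ (insert a1 (insert a2 G))) (hA' : CB k N₁ N₂ (insert d1 (insert d2 G)))
    (h3 : U (insert a1 (insert a2 G))) (h4 : ¬ U (insert d1 (insert d2 G)))
    (hv1 : ¬ Fl N₁ (insert a1 G) e) (hv2 : ¬ Fl N₁ (insert a2 G) e)
    (hw : ¬ Fl N₂ (insert a1 G) e ∨ ¬ Fl N₂ (insert a2 G) e) : False := by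
  have adj : ∀ (X Y : Finset E) (x : E), x ∉ G → insert x G ⊆ X → insert x G ⊆ Y →
      k ≤ (X ∩ Y).card + 1 := by
    intro X Y x hx hX hY
    have := Finset.card_le_card (Finset.subset_inter hX hY)
    rw [Finset.card_insert_of_notMem hx] at this
    omega
  obtain ⟨i1, i2⟩ := card_pair hG hA
  obtain ⟨j1, j2⟩ := card_pair hG hA'
  have i1' : a1 ∉ G := fun h => i1 (Finset.mem_insert_of_mem h)
  have j1' : d1 ∉ G := fun h => j1 (Finset.mem_insert_of_mem h)
  have s1 : ∀ x y : E, insert x G ⊆ insert x (insert y G) := fun x y =>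
    Finset.insert_subset_insert x (Finset.subset_insert y G)
  have s2 : ∀ x y : E, insert y G ⊆ insert x (insert y G) := fun x y =>
    Finset.subset_insert x _
  have heG : e ∉ G := fun h => hv1 (Or.inl (Finset.mem_insert_of_mem h))
  -- the neighbour of `A`
  obtain ⟨B, hB, hBU, heB⟩ : ∃ B, CB k N₁ N₂ B ∧ U B ∧ insert e G ⊆ B := by
    have key : ∀ a, a ∉ G → insert a G ⊆ insert a1 (insert a2 G) → ¬ Fl N₁ (insert a G) e →
        ¬ Fl N₂ (insert a G) e → ∃ B, CB k N₁ N₂ B ∧ U B ∧ insert e G ⊆ B := by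
      intro a haG hsub h5 h6
      have hB := common hG haG h5 h6
      exact ⟨_, hB, hU _ _ h3 hA hB (adj _ _ a haG hsub (s2 _ _)), s1 _ _⟩
    rcases hw with h | h
    · exact key a1 i1' (s1 _ _) hv1 h
    · exact key a2 i2 (s2 _ _) hv2 h
  have hwG : ¬ Fl N₂ G e := by
    rcases hw with h | h
    · exact fun h' => h (h'.mono (Finset.subset_insert _ _))
    · exact fun h' => h (h'.mono (Finset.subset_insert _ _))
  -- the elements `d` lie in one of the two hyperplanes
  have hd : ∀ d, d ∉ G → insert d G ⊆ insert d1 (insert d2 G) →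
      Fl N₁ (insert a1 G) d ∨ Fl N₁ (insert a2 G) d := by
    intro d hdG hsub
    by_contra hno
    push Not at hno
    have hwd : ¬ Fl N₂ G d := by
      rintro (h | h)
      · exact hdG h
      · exact h (hA'.2.2.mono hsub)
    obtain ⟨a, haG, haA, hva, hwa⟩ : ∃ a, a ∉ G ∧ insert a G ⊆ insert a1 (insert a2 G) ∧
        ¬ Fl N₁ (insert a G) d ∧ ¬ Fl N₂ (insert a G) d := by
      by_cases h5 : Fl N₂ (insert a1 G) d
      · refine ⟨a2, i2, s2 _ _, hno.2, fun h6 => hwd ?_⟩
        exact mem_both hA.2.2 i1 i2 h5 h6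
      · exact ⟨a1, i1', s1 _ _, hno.1, h5⟩
    have hB := common hG haG hva hwa
    have hBU := hU _ _ h3 hA hB (adj _ _ a haG haA (s2 _ _))
    exact h4 (hU _ _ hBU hB hA' (adj _ _ d hdG (s1 _ _) hsub))
  -- the neighbour of `A'`
  obtain ⟨d, hdG, hsub, hwd⟩ : ∃ d, d ∉ G ∧ insert d G ⊆ insert d1 (insert d2 G) ∧
      ¬ Fl N₂ (insert d G) e := by
    by_cases h5 : Fl N₂ (insert d1 G) e
    · refine ⟨d2, j2, s2 _ _, fun h6 => hwG ?_⟩
      exact mem_both hA'.2.2 j1 j2 h5 h6
    · exact ⟨d1, j1', s1 _ _, h5⟩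
  have hvd : ¬ Fl N₁ (insert d G) e := by
    intro h5
    rcases hd d hdG hsub with h6 | h6
    · exact hv1 (trans i1' hdG (hA'.2.1.mono hsub) h6 h5)
    · exact hv2 (trans i2 hdG (hA'.2.1.mono hsub) h6 h5)
  have hB' := common hG hdG hvd hwd
  have hB'U := hU _ _ hBU hB hB' (adj _ _ e heG heB (s1 _ _))
  exact h4 (hU _ _ hB'U hB' hA' (adj _ _ d hdG (s2 _ _) hsub))

/-- Exchange. -/
private theorem exch {N : Matroid E} {A A' : Finset E} (hA : I N A) (hA' : I N A')
    (hc : A.card = A'.card) {d : E} (hd : d ∈ A') (hd' : d ∉ A) :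
    ∃ a ∈ A, a ∉ A' ∧ I N (insert d (A.erase a)) := by
  -- enlarge the intersection with `d` by elements of `A`
  have key : ∀ n : ℕ, ∀ J : Finset E, I N J → insert d (A ∩ A') ⊆ J → J ⊆ insert d A →
      A.card ≤ J.card + n → ∃ J' : Finset E, I N J' ∧ insert d (A ∩ A') ⊆ J' ∧
        J' ⊆ insert d A ∧ A.card ≤ J'.card := by
    intro n
    induction n with
    | zero => exact fun J h1 h2 h3 h4 => ⟨J, h1, h2, h3, by omega⟩
    | succ n ih =>
      intro J h1 h2 h3 h4
      by_cases h5 : A.card ≤ J.card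
      · exact ⟨J, h1, h2, h3, h5⟩
      · obtain ⟨z, hz, hz1, hz2⟩ := aug h1 hA (by omega)
        refine ih (insert z J) hz2 (h2.trans (Finset.subset_insert _ _))
          (Finset.insert_subset (Finset.mem_insert_of_mem hz) h3) ?_
        rw [Finset.card_insert_of_notMem hz1]
        omega
  obtain ⟨J, hJ, hJ1, hJ2, hJ3⟩ := key A.card (insert d (A ∩ A'))
    (hA'.mono (Finset.insert_subset hd Finset.inter_subset_right)) Finset.Subset.rfl
    (Finset.insert_subset_insert d Finset.inter_subset_left) (by omega)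
  -- an element `a` such that `J` contains `A - a`
  obtain ⟨a, ha, ha', hJa⟩ : ∃ a ∈ A, a ∉ A' ∧ insert d (A.erase a) ⊆ J := by
    have hcard : (insert d A).card = A.card + 1 := Finset.card_insert_of_notMem hd'
    by_cases hfull : insert d A ⊆ J
    · obtain ⟨a, ha, ha'⟩ : ∃ a ∈ A, a ∉ A' := by
        by_contra hno
        push Not at hno
        have h1 : A = A' := Finset.eq_of_subset_of_card_le (fun x hx => hno x hx) (by omega)
        exact hd' (h1 ▸ hd)
      exact ⟨a, ha, ha', (Finset.insert_subset_insert d (Finset.erase_subset _ _)).trans hfull⟩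
    · obtain ⟨a, ha, haJ⟩ : ∃ a ∈ insert d A, a ∉ J := by
        by_contra hno
        push Not at hno
        exact hfull fun x hx => hno x hx
      have had : a ≠ d := fun h => haJ (hJ1 (h ▸ Finset.mem_insert_self _ _))
      have haA : a ∈ A := (Finset.mem_insert.mp ha).resolve_left had
      have haA' : a ∉ A' := fun h =>
        haJ (hJ1 (Finset.mem_insert_of_mem (Finset.mem_inter.mpr ⟨haA, h⟩)))
      refine ⟨a, haA, haA', ?_⟩
      have h1 : J ⊆ (insert d A).erase a := fun x hx =>
        Finset.mem_erase.mpr ⟨fun h => haJ (h ▸ hx), hJ2 hx⟩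
      have h2 : J = (insert d A).erase a := by
        apply Finset.eq_of_subset_of_card_le h1
        rw [Finset.card_erase_of_mem ha, hcard]
        omega
      rw [h2]
      intro x hx
      rcases Finset.mem_insert.mp hx with h | h
      · rw [h]
        exact Finset.mem_erase.mpr ⟨had.symm, Finset.mem_insert_self _ _⟩
      · rw [Finset.mem_erase] at h
        exact Finset.mem_erase.mpr ⟨h.1, Finset.mem_insert_of_mem h.2⟩
  exact ⟨a, ha, ha', hJ.mono hJa⟩

/-- A common independent set of `k - 1` elements near to `A` and `A'`. -/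
private theorem near {N₁ N₂ : Matroid E} {A A' : Finset E}
    (hA : CB k N₁ N₂ A) (hA' : CB k N₁ N₂ A') (hfar : (A ∩ A').card + 3 ≤ k) :
    ∃ G : Finset E, G.card + 1 = k ∧ I N₁ G ∧ I N₂ G ∧ A ∩ A' ⊆ G ∧
      k ≤ (G ∩ A).card + 2 ∧ (A ∩ A').card < (G ∩ A').card := by
  obtain ⟨hc, hv, hw⟩ := hA
  obtain ⟨hc', hv', hw'⟩ := hA'
  have hdiff : 3 ≤ (A \ A').card := by
    have := Finset.card_sdiff_add_card_inter A A'
    omega
  obtain ⟨d, hd, hd'⟩ : ∃ d ∈ A', d ∉ A := by
    by_contra hno
    push Not at hno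
    have h1 : A' ⊆ A ∩ A' := fun x hx => Finset.mem_inter.mpr ⟨hno x hx, hx⟩
    have := Finset.card_le_card h1
    omega
  obtain ⟨a, ha, ha', hva⟩ := exch hv hv' (by omega) hd hd'
  obtain ⟨b, hb, hb', hwb⟩ := exch hw hw' (by omega) hd hd'
  obtain ⟨p, q, hp, hq, hp', hq', hpq, hG1, hG2⟩ : ∃ p q : E, p ∈ A ∧ q ∈ A ∧ p ∉ A' ∧ q ∉ A' ∧
      p ≠ q ∧ I N₁ (insert d ((A.erase p).erase q)) ∧
      I N₂ (insert d ((A.erase p).erase q)) := by
    by_cases hab : a = b
    · obtain ⟨c, hcm, hca⟩ : ∃ c ∈ A \ A', c ≠ a := by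
        by_contra hno
        push Not at hno
        have h1 : A \ A' ⊆ {a} := fun x hx => Finset.mem_singleton.mpr (hno x hx)
        have := Finset.card_le_card h1
        simp at this
        omega
      rw [Finset.mem_sdiff] at hcm
      refine ⟨a, c, ha, hcm.1, ha', hcm.2, hca.symm, ?_, ?_⟩
      · exact hva.mono (Finset.insert_subset_insert d (Finset.erase_subset _ _))
      · rw [← hab] at hwb
        exact hwb.mono (Finset.insert_subset_insert d (Finset.erase_subset _ _))
    · refine ⟨a, b, ha, hb, ha', hb', hab, ?_, ?_⟩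
      · exact hva.mono (Finset.insert_subset_insert d (Finset.erase_subset _ _))
      · rw [Finset.erase_right_comm]
        exact hwb.mono (Finset.insert_subset_insert d (Finset.erase_subset _ _))
  have hq2 : q ∈ A.erase p := Finset.mem_erase.mpr ⟨hpq.symm, hq⟩
  have hd2 : d ∉ (A.erase p).erase q := fun h =>
    hd' (Finset.mem_of_mem_erase (Finset.mem_of_mem_erase h))
  have hcG : ((A.erase p).erase q).card + 2 = k := by
    rw [Finset.card_erase_of_mem hq2, Finset.card_erase_of_mem hp, hc]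
    omega
  have hsub : A ∩ A' ⊆ (A.erase p).erase q := by
    intro x hx
    rw [Finset.mem_inter] at hx
    refine Finset.mem_erase.mpr ⟨fun h => hq' (h ▸ hx.2), Finset.mem_erase.mpr
      ⟨fun h => hp' (h ▸ hx.2), hx.1⟩⟩
  refine ⟨insert d ((A.erase p).erase q), ?_, hG1, hG2, ?_, ?_, ?_⟩
  · rw [Finset.card_insert_of_notMem hd2]
    omega
  · exact hsub.trans (Finset.subset_insert _ _)
  · have h1 : (A.erase p).erase q ⊆ insert d ((A.erase p).erase q) ∩ A := by
      intro x hx
      exact Finset.mem_inter.mpr ⟨Finset.mem_insert_of_mem hx,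
        Finset.mem_of_mem_erase (Finset.mem_of_mem_erase hx)⟩
    have := Finset.card_le_card h1
    omega
  · have h1 : insert d (A ∩ A') ⊆ insert d ((A.erase p).erase q) ∩ A' := by
      intro x hx
      rcases Finset.mem_insert.mp hx with h | h
      · rw [h]
        exact Finset.mem_inter.mpr ⟨Finset.mem_insert_self _ _, hd⟩
      · exact Finset.mem_inter.mpr ⟨Finset.mem_insert_of_mem (hsub h),
          (Finset.mem_inter.mp h).2⟩
    have h2 := Finset.card_le_card h1
    rw [Finset.card_insert_of_notMem (fun h => hd' (Finset.mem_inter.mp h).1)] at h2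
    omega

/-- **A nearest pair of two colours.** Either two flats of smaller rank cover `E`, or there are the
four cells of a bad square. -/
theorem dich {K : Type*} [Zero K] [Fintype E] (k : ℕ) (F : Finset E → K) (N₁ N₂ : Matroid E)
    (hF : ∀ A : Finset E, F A ≠ 0 ↔ A.card = k ∧ N₁.Indep (A : Set E) ∧ N₂.Indep (A : Set E))
    (C : Finset E) (U : Finset E → Prop)
    (hU : ∀ A A', U A → F A ≠ 0 → F A' ≠ 0 → k ≤ (A ∩ A').card + 1 → U A')
    (A A' : Finset E) (hA : F A ≠ 0) (hA' : F A' ≠ 0) (h1 : C ⊆ A) (h2 : C ⊆ A')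
    (h3 : U A) (h4 : ¬ U A') :
    (∃ T1 T2 : Finset E, C ⊆ T1 ∧ C ⊆ T2 ∧ (∀ e, e ∈ T1 ∨ e ∈ T2) ∧
      (∀ B, B ⊆ T1 → F B = 0) ∧ (∀ B, B ⊆ T2 → F B = 0)) ∨
    (∃ G F1 F2 G1 G2 : Finset E, C ⊆ G ∧ G.card + 2 = k ∧ G ⊆ F1 ∧ G ⊆ F2 ∧ G ⊆ G1 ∧ G ⊆ G2 ∧
      (∀ B, B ⊆ F1 → F B = 0) ∧ (∀ B, B ⊆ F2 → F B = 0) ∧
      (∀ B, B ⊆ G1 → F B = 0) ∧ (∀ B, B ⊆ G2 → F B = 0) ∧
      ∀ e, (e ∈ F1 ∧ e ∈ F2) ∨ (e ∈ G1 ∧ e ∈ G2) ∨ ((e ∈ F1 ∨ e ∈ F2) ∧ (e ∈ G1 ∨ e ∈ G2))) := by
  classical
  have cb_iff : ∀ X : Finset E, F X ≠ 0 ↔ CB k N₁ N₂ X := hF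
  have hU' : ∀ A A', U A → CB k N₁ N₂ A → CB k N₁ N₂ A' → k ≤ (A ∩ A').card + 1 → U A' :=
    fun A A' a b c d => hU A A' a ((cb_iff A).mpr b) ((cb_iff A').mpr c) d
  let fl : Matroid E → Finset E → Finset E := fun N X => Finset.univ.filter fun e => Fl N X e
  have hfl : ∀ (N : Matroid E) (X : Finset E) (e : E), e ∈ fl N X ↔ Fl N X e := by
    intro N X e
    simp [fl]
  have hsub : ∀ (N : Matroid E) (X Y : Finset E), X ⊆ Y → X ⊆ fl N Y := by
    intro N X Y h x hx
    rw [hfl]
    exact Or.inl (h hx)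
  have zero1 : ∀ X : Finset E, X.card + 1 = k → I N₁ X → ∀ B, B ⊆ fl N₁ X → F B = 0 := by
    intro X hX hI B hB
    by_contra hF'
    have h := (cb_iff B).mp hF'
    exact not_li h.2.1 hI (by have := h.1; omega) fun x hx => (hfl N₁ X x).mp (hB hx)
  have zero2 : ∀ X : Finset E, X.card + 1 = k → I N₂ X → ∀ B, B ⊆ fl N₂ X → F B = 0 := by
    intro X hX hI B hB
    by_contra hF'
    have h := (cb_iff B).mp hF'
    exact not_li h.2.2 hI (by have := h.1; omega) fun x hx => (hfl N₂ X x).mp (hB hx)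
  have main : ∀ n : ℕ, ∀ A A' : Finset E, k ≤ (A ∩ A').card + n → F A ≠ 0 → F A' ≠ 0 →
      C ⊆ A → C ⊆ A' → U A → ¬ U A' →
      (∃ T1 T2 : Finset E, C ⊆ T1 ∧ C ⊆ T2 ∧ (∀ e, e ∈ T1 ∨ e ∈ T2) ∧
        (∀ B, B ⊆ T1 → F B = 0) ∧ (∀ B, B ⊆ T2 → F B = 0)) ∨
      (∃ G F1 F2 G1 G2 : Finset E, C ⊆ G ∧ G.card + 2 = k ∧ G ⊆ F1 ∧ G ⊆ F2 ∧ G ⊆ G1 ∧ G ⊆ G2 ∧
        (∀ B, B ⊆ F1 → F B = 0) ∧ (∀ B, B ⊆ F2 → F B = 0) ∧
        (∀ B, B ⊆ G1 → F B = 0) ∧ (∀ B, B ⊆ G2 → F B = 0) ∧
        ∀ e, (e ∈ F1 ∧ e ∈ F2) ∨ (e ∈ G1 ∧ e ∈ G2) ∨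
          ((e ∈ F1 ∨ e ∈ F2) ∧ (e ∈ G1 ∨ e ∈ G2))) := by
    intro n
    induction n with
    | zero =>
      intro A A' hn a1 a2 _ _ a3 a4
      exact absurd (hU A A' a3 a1 a2 (by omega)) a4
    | succ n ih =>
      intro A A' hn a1 a2 c1 c2 a3 a4
      by_cases hfar : (A ∩ A').card + 3 ≤ k
      · obtain ⟨G, hG, hGv, hGw, hsubG, hGA, hGA'⟩ :=
          near ((cb_iff A).mp a1) ((cb_iff A').mp a2) hfar
        have hCG : C ⊆ G := (Finset.subset_inter c1 c2).trans hsubG
        by_cases he : ∃ e, ¬ Fl N₁ G e ∧ ¬ Fl N₂ G e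
        · obtain ⟨e, hev, hew⟩ := he
          obtain ⟨heG, i1⟩ := not_fl hev
          obtain ⟨_, i2⟩ := not_fl hew
          have hB : F (insert e G) ≠ 0 := by
            rw [cb_iff]
            refine ⟨?_, i1, i2⟩
            rw [Finset.card_insert_of_notMem heG, hG]
          have hCB : C ⊆ insert e G := hCG.trans (Finset.subset_insert _ _)
          have j1 : (G ∩ A).card ≤ (A ∩ insert e G).card := Finset.card_le_card (by
            intro x hx
            rw [Finset.mem_inter] at hx
            exact Finset.mem_inter.mpr ⟨hx.2, Finset.mem_insert_of_mem hx.1⟩)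
          have j2 : (G ∩ A').card ≤ (insert e G ∩ A').card := Finset.card_le_card
            (Finset.inter_subset_inter_right (Finset.subset_insert _ _))
          by_cases hUB : U (insert e G)
          · exact ih (insert e G) A' (by omega) hB a2 hCB c2 hUB a4
          · exact ih A (insert e G) (by omega) a1 hB c1 hCB a3 hUB
        · push Not at he
          left
          refine ⟨fl N₁ G, fl N₂ G, hsub N₁ C G hCG, hsub N₂ C G hCG, fun e => ?_, zero1 G hG hGv,
            zero2 G hG hGw⟩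
          by_cases hev : Fl N₁ G e
          · exact Or.inl ((hfl N₁ G e).mpr hev)
          · exact Or.inr ((hfl N₂ G e).mpr (he e hev))
      · by_cases hone : k ≤ (A ∩ A').card + 1
        · exact absurd (hU A A' a3 a1 a2 hone) a4
        · right
          have hG : (A ∩ A').card + 2 = k := by omega
          have b1 := (cb_iff A).mp a1
          have b2 := (cb_iff A').mp a2
          have pair : ∀ X : Finset E, A ∩ A' ⊆ X → X.card = k →
              ∃ x y, X = insert x (insert y (A ∩ A')) := by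
            intro X hX hk
            have h5 : (X \ (A ∩ A')).card = 2 := by
              rw [Finset.card_sdiff_of_subset hX]
              omega
            obtain ⟨x, y, _, h6⟩ := Finset.card_eq_two.mp h5
            refine ⟨x, y, ?_⟩
            have h7 : X = (X \ (A ∩ A')) ∪ (A ∩ A') := (Finset.sdiff_union_of_subset hX).symm
            conv_lhs => rw [h7, h6]
            ext z
            simp
          obtain ⟨x1, x2, hx⟩ := pair A Finset.inter_subset_left b1.1
          obtain ⟨y1, y2, hy⟩ := pair A' Finset.inter_subset_right b2.1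
          set G := A ∩ A' with hGdef
          clear_value G
          subst hx
          subst hy
          obtain ⟨i1, i2⟩ := card_pair hG b1
          have i1' : x1 ∉ G := fun h => i1 (Finset.mem_insert_of_mem h)
          have cG1 : (insert x1 G).card + 1 = k := by
            rw [Finset.card_insert_of_notMem i1']
            omega
          have cG2 : (insert x2 G).card + 1 = k := by
            rw [Finset.card_insert_of_notMem i2]
            omega
          have s1 : insert x1 G ⊆ insert x1 (insert x2 G) :=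
            Finset.insert_subset_insert x1 (Finset.subset_insert x2 G)
          have s2 : insert x2 G ⊆ insert x1 (insert x2 G) := Finset.subset_insert x1 _
          have hCG : C ⊆ G := by
            rw [hGdef]
            exact Finset.subset_inter c1 c2
          refine ⟨G, fl N₁ (insert x1 G), fl N₁ (insert x2 G), fl N₂ (insert x1 G),
            fl N₂ (insert x2 G), hCG, hG, hsub _ _ _ (Finset.subset_insert _ _),
            hsub _ _ _ (Finset.subset_insert _ _), hsub _ _ _ (Finset.subset_insert _ _),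
            hsub _ _ _ (Finset.subset_insert _ _), zero1 _ cG1 (b1.2.1.mono s1),
            zero1 _ cG2 (b1.2.1.mono s2), zero2 _ cG1 (b1.2.2.mono s1),
            zero2 _ cG2 (b1.2.2.mono s2), fun e => ?_⟩
          simp only [hfl]
          by_contra hcon
          push Not at hcon
          obtain ⟨q1, q2, q3⟩ := hcon
          have hU2 : ∀ A A', U A → CB k N₂ N₁ A → CB k N₂ N₁ A' → k ≤ (A ∩ A').card + 1 → U A' :=
            fun A A' a b c d => hU' A A' a (cb_symm b) (cb_symm c) d
          by_cases p1 : Fl N₁ (insert x1 G) e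
          · have p3 := q3 (Or.inl p1)
            exact cell hU2 hG (cb_symm b1) (cb_symm b2) a3 a4 p3.1 p3.2 (Or.inr (q1 p1))
          · by_cases p2 : Fl N₁ (insert x2 G) e
            · have p3 := q3 (Or.inr p2)
              exact cell hU2 hG (cb_symm b1) (cb_symm b2) a3 a4 p3.1 p3.2 (Or.inl p1)
            · by_cases p3 : Fl N₂ (insert x1 G) e
              · exact cell hU' hG b1 b2 a3 a4 p1 p2 (Or.inr (q2 p3))
              · exact cell hU' hG b1 b2 a3 a4 p1 p2 (Or.inl p3)
  exact main k A A' (by omega) hA hA' h1 h2 h3 h4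

end Pool.Agent.H53CB.GeoM
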